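import Pool.Agent.U187.NS.Main
import Pool.Agent.W353.SP.NMain

/-! Averages over the primes and Dirichlet series: partial summation. -/

set_option autoImplicit false

namespace Pool.Agent.U187.TM

open Filter Topology NumberField IsDedekindDomain
open Pool.Agent.W540.BE Pool.Agent.W353.L1 Pool.Agent.W401.Cheb
open Pool.Agent.H341R2 (lam lam_tendsto)
open Pool.Agent.H126U (VX mem_VX)
open Pool.Agent.H126U.ST Pool.Agent.H126U.JT Pool.Agent.H126V.Taub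

section
variable {K : Type} [Field K] [NumberField K]

theorem mem_V {X : ℕ} {v : HeightOneSpectrum (𝓞 K)} : v ∈ VX K X ↔ nm K v ≤ X := mem_VX K

/-- the weight -/
noncomputable def gw (ε : ℝ) (n : ℕ) : ℝ := (n : ℝ) ^ (-(1 + ε)) / Real.log n

theorem gw_anti {ε : ℝ} (hε : 0 < ε) {n : ℕ} (hn : 2 ≤ n) : gw ε (n + 1) ≤ gw ε n := by
  unfold gw
  have h1 : (2 : ℝ) ≤ n := by exact_mod_cast hn
  have h2 : 0 < Real.log n := Real.log_pos (by linarith)
  have h3 : Real.log n ≤ Real.log ((n + 1 : ℕ) : ℝ) :=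
    Real.log_le_log (by linarith) (by push_cast; linarith)
  have h4 : (((n + 1 : ℕ) : ℝ)) ^ (-(1 + ε)) ≤ (n : ℝ) ^ (-(1 + ε)) :=
    Real.rpow_le_rpow_of_nonpos (by linarith) (by push_cast; linarith) (by linarith)
  have h5 : 0 ≤ (n : ℝ) ^ (-(1 + ε)) := by positivity
  exact div_le_div₀ h5 h4 h2 h3

theorem gw_nonneg {ε : ℝ} (n : ℕ) : 0 ≤ gw ε n := by
  unfold gw
  exact div_nonneg (by positivity) (Real.log_natCast_nonneg n)

theorem gw_le {ε : ℝ} (hε : 0 < ε) {n : ℕ} (hn : 2 ≤ n) : gw ε n ≤ 1 / Real.log 2 := by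
  unfold gw
  have h1 : (2 : ℝ) ≤ n := by exact_mod_cast hn
  have h2 : 0 < Real.log 2 := Real.log_pos (by norm_num)
  have h3 : Real.log 2 ≤ Real.log n := Real.log_le_log (by norm_num) h1
  have h4 : (n : ℝ) ^ (-(1 + ε)) ≤ 1 :=
    Real.rpow_le_one_of_one_le_of_nonpos (by linarith) (by linarith)
  exact div_le_div₀ zero_le_one h4 h2 h3

/-- the sum over the primes of norm at most `X`, with logarithmic weights -/
noncomputable def UU (ψ : HeightOneSpectrum (𝓞 K) → ℝ) (X : ℕ) : ℝ :=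
  ∑ v ∈ VX K X, ψ v * Real.log (nm K v)

/-- the partial sum of the Dirichlet series -/
noncomputable def AA (ψ : HeightOneSpectrum (𝓞 K) → ℝ) (ε : ℝ) (X : ℕ) : ℝ :=
  ∑ v ∈ VX K X, ψ v * (nm K v : ℝ) ^ (-(1 + ε))

theorem step (ψ : HeightOneSpectrum (𝓞 K) → ℝ) {ε : ℝ} {X : ℕ} (hX : 2 ≤ X) :
    AA ψ ε (X + 1) - AA ψ ε X = gw ε (X + 1) * (UU ψ (X + 1) - UU ψ X) := by
  classical
  have hsub : VX K X ⊆ VX K (X + 1) := fun v hv => by
    rw [mem_V] at hv ⊢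
    omega
  unfold AA UU
  rw [← Finset.sum_sdiff hsub, add_sub_cancel_right, ← Finset.sum_sdiff hsub,
    add_sub_cancel_right, Finset.mul_sum]
  refine Finset.sum_congr rfl fun v hv => ?_
  rw [Finset.mem_sdiff, mem_V, mem_V] at hv
  have hv' : nm K v = X + 1 := by omega
  have h2 : 0 < Real.log ((X + 1 : ℕ) : ℝ) := Real.log_pos (by
    have : (2 : ℝ) ≤ X := by exact_mod_cast hX
    push_cast
    linarith)
  rw [hv']
  unfold gw
  field_simp

/-- partial summation -/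
theorem partial_le (ψ : HeightOneSpectrum (𝓞 K) → ℝ) {N₀ : ℕ} (hN₀ : 2 ≤ N₀)
    (h : ∀ X, N₀ ≤ X → UU ψ X ≤ 0) {ε : ℝ} (hε : 0 < ε) {X : ℕ} (hX : N₀ ≤ X) :
    AA ψ ε X ≤ AA ψ ε N₀ - gw ε N₀ * UU ψ N₀ + gw ε X * UU ψ X := by
  induction X, hX using Nat.le_induction with
  | base => linarith
  | succ X hX ih =>
    have h1 := step ψ (ε := ε) (X := X) (by omega)
    have h2 := gw_anti hε (n := X) (by omega)
    have h3 := h X hX
    nlinarith

/-- a bound which does not depend on `ε` -/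
theorem AA_bdd (ψ : HeightOneSpectrum (𝓞 K) → ℝ) {N₀ : ℕ} (hN₀ : 2 ≤ N₀)
    (h : ∀ X, N₀ ≤ X → UU ψ X ≤ 0) : ∃ C : ℝ, ∀ ε : ℝ, 0 < ε → ∀ X, N₀ ≤ X → AA ψ ε X ≤ C := by
  refine ⟨(∑ v ∈ VX K N₀, |ψ v|) + 1 / Real.log 2 * |UU ψ N₀|, fun ε hε X hX => ?_⟩
  have h1 := partial_le ψ hN₀ h hε hX
  have h2 : gw ε X * UU ψ X ≤ 0 := mul_nonpos_of_nonneg_of_nonpos (gw_nonneg X) (h X hX)
  have h3 : AA ψ ε N₀ ≤ ∑ v ∈ VX K N₀, |ψ v| := by
    unfold AA
    refine Finset.sum_le_sum fun v _ => ?_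
    have h4 : (1 : ℝ) ≤ nm K v := by
      have := two_le_nm v
      exact_mod_cast (by omega : 1 ≤ nm K v)
    have h5 : (nm K v : ℝ) ^ (-(1 + ε)) ≤ 1 :=
      Real.rpow_le_one_of_one_le_of_nonpos h4 (by linarith)
    have h6 : 0 ≤ (nm K v : ℝ) ^ (-(1 + ε)) := by positivity
    calc ψ v * (nm K v : ℝ) ^ (-(1 + ε)) ≤ |ψ v| * (nm K v : ℝ) ^ (-(1 + ε)) :=
          mul_le_mul_of_nonneg_right (le_abs_self _) h6
      _ ≤ |ψ v| * 1 := mul_le_mul_of_nonneg_left h5 (abs_nonneg _)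
      _ = |ψ v| := mul_one _
  have h7 : -(gw ε N₀ * UU ψ N₀) ≤ 1 / Real.log 2 * |UU ψ N₀| := by
    rw [neg_mul_eq_mul_neg]
    calc gw ε N₀ * -UU ψ N₀ ≤ gw ε N₀ * |UU ψ N₀| :=
          mul_le_mul_of_nonneg_left (neg_le_abs _) (gw_nonneg _)
      _ ≤ _ := mul_le_mul_of_nonneg_right (gw_le hε hN₀) (abs_nonneg _)
  linarith

theorem tendsto_VX : Tendsto (fun X : ℕ => VX K X) atTop atTop := by
  refine tendsto_atTop_finset_of_monotone (fun a b hab v hv => ?_) fun v => ⟨nm K v, ?_⟩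
  · rw [mem_V] at hv ⊢
    omega
  · rw [mem_V]

/-- the Dirichlet series -/
theorem EP_bdd (ψ : HeightOneSpectrum (𝓞 K) → ℝ) {B : ℝ} (hB : ∀ v, |ψ v| ≤ B) {N₀ : ℕ}
    (hN₀ : 2 ≤ N₀) (h : ∀ X, N₀ ≤ X → UU ψ X ≤ 0) :
    ∃ C : ℝ, ∀ ε : ℝ, 0 < ε → EP (nm K) ε ψ ≤ C := by
  obtain ⟨C, hC⟩ := AA_bdd ψ hN₀ h
  refine ⟨C, fun ε hε => ?_⟩
  have h1 : HasSum (fun v : HeightOneSpectrum (𝓞 K) => ψ v * (nm K v : ℝ) ^ (-(1 + ε)))
      (EP (nm K) ε ψ) := (summable_EP normSys hε hB).hasSum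
  have h2 : Tendsto (fun X : ℕ => AA ψ ε X) atTop (𝓝 (EP (nm K) ε ψ)) :=
    (show Tendsto (fun s : Finset (HeightOneSpectrum (𝓞 K)) =>
      ∑ v ∈ s, ψ v * (nm K v : ℝ) ^ (-(1 + ε))) atTop (𝓝 (EP (nm K) ε ψ)) from h1).comp tendsto_VX
  exact le_of_tendsto h2 (eventually_atTop.2 ⟨N₀, fun X hX => hC ε hε X hX⟩)

/-- the prime ideal theorem -/
theorem LA_one : Tendsto (fun X : ℕ => LA (K := K) ∅ X fun _ => 1) atTop (𝓝 1) := by
  have h1 := LA_mn (K := K) ∅ (φ := fun _ => (1 : ℝ)) (B := 1) zero_le_one (fun v _ => by simp)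
  have h2 : Tendsto (fun X : ℕ => mn (VS (K := K) ∅ X) fun _ => (1 : ℝ)) atTop (𝓝 1) := by
    refine tendsto_const_nhds.congr' ?_
    filter_upwards [(tendsto_card_VS (K := K) ∅).eventually_gt_atTop 0] with X hX
    unfold mn
    rw [Finset.sum_const, nsmul_eq_mul, mul_one, div_self hX.ne']
  have h3 := h1.add h2
  rw [zero_add] at h3
  exact h3.congr fun X => by ring

theorem LA_eq (φ : HeightOneSpectrum (𝓞 K) → ℝ) (X : ℕ) : LA ∅ X φ = UU φ X / X := by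
  unfold LA UU
  congr 1
  have e0 : VS (K := K) ∅ X = VX K X := by
    unfold VS
    simp
  rw [e0]
  rfl

/-- **Natural averages and Dirichlet series.** -/
theorem abel_le {φ : HeightOneSpectrum (𝓞 K) → ℝ} {B : ℝ} (hB : ∀ v, |φ v| ≤ B) {c : ℝ}
    (h : ∀ η : ℝ, 0 < η → ∀ᶠ X : ℕ in atTop, LA ∅ X φ ≤ c + η) {η : ℝ} (hη : 0 < η) :
    ∀ᶠ ε : ℝ in 𝓝[>] 0, EP (nm K) ε φ / lam ε ≤ c + η := by
  have hN : NormSys (nm K) := normSys
  set a : ℝ := c + η / 2 with ha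
  set ψ : HeightOneSpectrum (𝓞 K) → ℝ := fun v => φ v + (-a) * 1 with hψ
  have hψB : ∀ v, |ψ v| ≤ B + |a| := fun v => by
    rw [hψ]
    simp only
    refine (abs_add_le _ _).trans (add_le_add (hB v) ?_)
    rw [mul_one, abs_neg]
  have h1 := h (η / 8) (by positivity)
  have h2 : ∀ᶠ X : ℕ in atTop, -(η / 8) < a * LA (K := K) ∅ X (fun _ => 1) - a := by
    have h3 := (LA_one (K := K)).const_mul a
    rw [mul_one] at h3
    have h4 := h3.sub_const a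
    rw [sub_self] at h4
    exact h4.eventually_const_lt (by linarith)
  obtain ⟨N₁, hN₁⟩ := eventually_atTop.1 ((h1.and h2).and (eventually_ge_atTop 2))
  have hU : ∀ X, N₁ + 2 ≤ X → UU ψ X ≤ 0 := by
    intro X hX
    obtain ⟨⟨h3, h4⟩, h5⟩ := hN₁ X (by omega)
    have hX0 : (0 : ℝ) < X := by exact_mod_cast (by omega : 0 < X)
    have e1 : UU ψ X = UU φ X - a * UU (fun _ : HeightOneSpectrum (𝓞 K) => (1 : ℝ)) X := by
      unfold UU
      rw [Finset.mul_sum, ← Finset.sum_sub_distrib]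
      refine Finset.sum_congr rfl fun v _ => ?_
      rw [hψ]
      ring
    have e2 : UU ψ X = X * (LA ∅ X φ - a * LA (K := K) ∅ X fun _ => 1) := by
      rw [LA_eq, LA_eq, e1]
      field_simp
    rw [e2]
    refine mul_nonpos_of_nonneg_of_nonpos hX0.le ?_
    linarith
  obtain ⟨C, hC⟩ := EP_bdd ψ hψB (by omega) hU
  have l1 := (EP_one K).const_mul a
  rw [mul_one] at l1
  have l2 : Tendsto (fun ε : ℝ => |C| / lam ε) (𝓝[>] 0) (𝓝 0) :=
    tendsto_const_nhds.div_atTop lam_tendsto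
  have l3 := l1.add l2
  rw [add_zero] at l3
  filter_upwards [self_mem_nhdsWithin, lam_tendsto.eventually_gt_atTop 0,
    l3.eventually_lt_const (show a < c + η by rw [ha]; linarith)] with ε hε hε' h3
  have hε0 : (0 : ℝ) < ε := hε
  have h4 := hC ε hε0
  rw [hψ, EP_add hN hε0 hB (B' := |a|) (fun v => by rw [mul_one, abs_neg]), EP_const_mul] at h4
  refine le_trans ?_ h3.le
  rw [← mul_div_assoc, ← add_div]
  refine div_le_div_of_nonneg_right ?_ hε'.le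
  have h5 := le_abs_self C
  linarith

/-- the same from below -/
theorem abel_ge {φ : HeightOneSpectrum (𝓞 K) → ℝ} {B : ℝ} (hB : ∀ v, |φ v| ≤ B) {c : ℝ}
    (h : ∀ η : ℝ, 0 < η → ∀ᶠ X : ℕ in atTop, c - η ≤ LA ∅ X φ) {η : ℝ} (hη : 0 < η) :
    ∀ᶠ ε : ℝ in 𝓝[>] 0, c - η ≤ EP (nm K) ε φ / lam ε := by
  have e1 : ∀ X : ℕ, LA ∅ X (fun v => -φ v) = -LA ∅ X φ := by
    intro X
    rw [LA_eq, LA_eq, ← neg_div]
    congr 1
    unfold UU
    rw [← Finset.sum_neg_distrib]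
    exact Finset.sum_congr rfl fun v _ => by ring
  have h1 := abel_le (φ := fun v => -φ v) (B := B) (fun v => by rw [abs_neg]; exact hB v)
    (c := -c) (fun η' hη' => (h η' hη').mono fun X hX => by rw [e1]; linarith) hη
  filter_upwards [h1] with ε h2
  have e2 : (EP (nm K) ε fun v => -φ v) = -EP (nm K) ε φ := by
    rw [← neg_one_mul (EP (nm K) ε φ), ← EP_const_mul]
    exact Pool.Agent.Y677.SM.EP_congr fun v => by ring
  rw [e2, neg_div] at h2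
  linarith

end

end Pool.Agent.U187.TM
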