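import Pool.Agent.U187.NS.Defs
import Pool.Agent.W353.SP.NDefs

/-!
# Tauberian averages for products: definitions

`Y` and `Z` are smooth projective, geometrically connected varieties over a number field `K`, given by
their equations, dimensions and first and second Betti numbers.
-/

set_option autoImplicit false

namespace Pool.Agent.U187.TM

open NumberField IsDedekindDomain Filter Topology
open Pool.Agent.U187.NS (VarK)
open Pool.Agent.W353.EF (IsFrobenius)
open Pool.Agent.W353.SP (average IsTrace)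

section
variable {K : Type} [Field K] [NumberField K]

/-- At all primes `v` of `K` not in the finite set `R`, `b v` is the trace of the geometric Frobenius on
`H²(Y × Z)`: if `α_k, γ_k` are its eigenvalues on `H¹(Y), H²(Y)` and `α'_l, γ'_l` those on
`H¹(Z), H²(Z)`, then `b v = ∑ γ_k + ∑ γ'_l + (∑ α_k) (∑ α'_l)` (formula of Künneth). -/
def IsProductTrace (Y Z : VarK K) (R : Finset (HeightOneSpectrum (𝓞 K)))
    (b : HeightOneSpectrum (𝓞 K) → ℂ) : Prop :=
  ∀ v, v ∉ R → ∃ (α : Fin Y.b₁ → ℂ) (γ : Fin Y.b₂ → ℂ) (α' : Fin Z.b₁ → ℂ) (γ' : Fin Z.b₂ → ℂ),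
    IsFrobenius Y.eqs Y.dim 1 v α ∧ IsFrobenius Y.eqs Y.dim 2 v γ ∧
    IsFrobenius Z.eqs Z.dim 1 v α' ∧ IsFrobenius Z.eqs Z.dim 2 v γ' ∧
    b v = ∑ k, γ k + ∑ l, γ' l + (∑ k, α k) * ∑ l, α' l

/-- `D(T) = A(T) - A₀(T) - A'(T)` for the averages `A`, `A₀`, `A'` of the question, for the varieties
`Y × Z`, `Y` and `Z`: the average is `T⁻¹ ∑ b_v log(q_v) / q_v`, the sum over the primes `v` of norm
`q_v ≤ T` outside of a finite set `R`, which contains the primes of bad reduction, and `b_v` is the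
trace of Frobenius on `H²`. -/
def IsDeviation (Y Z : VarK K) (D : ℕ → ℝ) : Prop :=
  ∃ (R₀ R' R : Finset (HeightOneSpectrum (𝓞 K))) (b₀ b' b : HeightOneSpectrum (𝓞 K) → ℂ),
    IsTrace Y.eqs Y.dim 2 Y.b₂ R₀ b₀ ∧ IsTrace Z.eqs Z.dim 2 Z.b₂ R' b' ∧
    IsProductTrace Y Z R b ∧
    ∀ T, D T = average 1 R b T - average 1 R₀ b₀ T - average 1 R' b' T

end

/-- The lower limit of `D(T)` for `T → ∞` is at least `c`. -/
def LowerLimitGE (D : ℕ → ℝ) (c : ℝ) : Prop :=
  ∀ η : ℝ, 0 < η → ∀ᶠ T in atTop, c - η ≤ D T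

/-- The upper limit of `D(T)` for `T → ∞` is at most `c`. -/
def UpperLimitLE (D : ℕ → ℝ) (c : ℝ) : Prop :=
  ∀ η : ℝ, 0 < η → ∀ᶠ T in atTop, D T ≤ c + η

end Pool.Agent.U187.TM
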