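import Pool.Agent.U187.TM.Abel
import Pool.Agent.U187.TM.Defs

/-! Tauberian averages for products with varieties with modular Albanese variety. -/

set_option autoImplicit false

namespace Pool.Agent.U187.TM

open Filter Topology NumberField IsDedekindDomain CongruenceSubgroup
open scoped MatrixGroups
open Pool.Agent.W540.BE Pool.Agent.W353.L1 Pool.Agent.W401.Cheb
open Pool.Agent.H341R2 (lam lam_tendsto)
open Pool.Agent.H126U (VX mem_VX)
open Pool.Agent.H126U.ST Pool.Agent.H126U.JT Pool.Agent.H126V.Taub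
open Pool.Agent.W353.PV (Eig alp tF pick_spec)
open Pool.Agent.W353.EF (IsFrobenius)
open Pool.Agent.W353.SP (average IsTrace average_eq trace_tF LA_EN EN_eq EN)
open Pool.Agent.Y722.EP (eig_of nm_w nm_h)
open Pool.Agent.U187.MF (IsNewforms)
open Pool.Agent.U187.NS

section
variable {K : Type} [Field K] [NumberField K] {Ω : Type} {L : Ω → ℕ}
  {f : ∀ x, CuspForm (Gamma0 (L x) : Subgroup (GL (Fin 2) ℝ)) 2} {Y Z : VarK K}

/-- the trace on `H²(Y × Z)` -/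
theorem prod_val {v : HeightOneSpectrum (𝓞 K)} {α : Fin Y.b₁ → ℂ} {γ : Fin Y.b₂ → ℂ}
    {α' : Fin Z.b₁ → ℂ} {γ' : Fin Z.b₂ → ℂ}
    (h1 : IsFrobenius Y.eqs Y.dim 1 v α) (h2 : IsFrobenius Y.eqs Y.dim 2 v γ)
    (h3 : IsFrobenius Z.eqs Z.dim 1 v α') (h4 : IsFrobenius Z.eqs Z.dim 2 v γ') :
    (∑ k, γ k + ∑ l, γ' l + (∑ k, α k) * ∑ l, α' l).re / (Ideal.absNorm v.asIdeal : ℝ) ^ 1 =
      tF Y.eqs Y.dim 2 Y.b₂ K v + tF Z.eqs Z.dim 2 Z.b₂ K v +
        tF Y.eqs Y.dim 1 Y.b₁ K v * tF Z.eqs Z.dim 1 Z.b₁ K v := by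
  have hg : Good Y Z v := ⟨pick_spec ⟨α, h1⟩, pick_spec ⟨γ, h2⟩, pick_spec ⟨α', h3⟩,
    pick_spec ⟨γ', h4⟩⟩
  have hq : (0 : ℝ) < nm K v := by
    have := two_le_nm v
    exact_mod_cast (by omega : 0 < nm K v)
  have h := hg.trace
  rw [← h, sum_unique (one_le_two Y) (eig_of h1), sum_unique (two_le_two Y) (eig_of h2),
    sum_unique (one_le_two Z) (eig_of h3), sum_unique (two_le_two Z) (eig_of h4), ← de_sum]
  unfold tr
  rw [if_pos ⟨hg.norm, hg.im⟩, Real.rpow_neg hq.le, nm_w, pow_one, div_eq_mul_inv]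
  rfl

theorem bd_tF {n : ℕ} (X : Set (MvPolynomial (Fin n) (𝓞 K))) (d i N : ℕ)
    (v : HeightOneSpectrum (𝓞 K)) : |tF X d i N K v| ≤ (N : ℝ) := abs_tr_le _ _ _

/-- the correlation of the traces on the first cohomology -/
noncomputable def cor (Y Z : VarK K) (v : HeightOneSpectrum (𝓞 K)) : ℝ :=
  tF Y.eqs Y.dim 1 Y.b₁ K v * tF Z.eqs Z.dim 1 Z.b₁ K v

theorem cor_le (Y Z : VarK K) (v : HeightOneSpectrum (𝓞 K)) :
    |cor Y Z v| ≤ (Y.b₁ : ℝ) * Z.b₁ := by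
  unfold cor
  rw [abs_mul]
  exact mul_le_mul (bd_tF _ _ _ _ _) (bd_tF _ _ _ _ _) (abs_nonneg _) (Nat.cast_nonneg _)

/-- the averages for `H²(Y)` -/
theorem avg_one {R₀ : Finset (HeightOneSpectrum (𝓞 K))} {b₀ : HeightOneSpectrum (𝓞 K) → ℂ}
    (h₀ : IsTrace Y.eqs Y.dim 2 Y.b₂ R₀ b₀) :
    Tendsto (fun T : ℕ => average 1 R₀ b₀ T - EN K T fun v => tF Y.eqs Y.dim 2 Y.b₂ K v) atTop
      (𝓝 0) := by
  have h1 := LA_EN R₀ (φ := fun v => (b₀ v).re / (Ideal.absNorm v.asIdeal : ℝ) ^ 1)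
    (ψ := fun v => tF Y.eqs Y.dim 2 Y.b₂ K v) ⟨Y.b₂, fun v => bd_tF _ _ _ _ v⟩ (fun v hv => by
      obtain ⟨α, hα, hb⟩ := h₀ v hv
      have hα' : Eig Y.eqs Y.dim (2 * 1) v α := hα
      have hq : (1 : ℝ) < (Ideal.absNorm v.asIdeal : ℝ) := Pool.Agent.W353.PV.one_lt_norm v
      have hq0 : (0 : ℝ) < (Ideal.absNorm v.asIdeal : ℝ) ^ 1 := by positivity
      have h2 := trace_tF (F := K) (two_le_two Y) hα'
      rw [hb, h2, Complex.ofReal_re, mul_div_cancel_left₀ _ hq0.ne'])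
  refine h1.congr fun T => ?_
  rw [average_eq]

/-- the averages for `H²(Y × Z)` -/
theorem avg_prod {R : Finset (HeightOneSpectrum (𝓞 K))} {b : HeightOneSpectrum (𝓞 K) → ℂ}
    (h : IsProductTrace Y Z R b) :
    Tendsto (fun T : ℕ => average 1 R b T - EN K T fun v => tF Y.eqs Y.dim 2 Y.b₂ K v +
      tF Z.eqs Z.dim 2 Z.b₂ K v + cor Y Z v) atTop (𝓝 0) := by
  have h1 := LA_EN R (φ := fun v => (b v).re / (Ideal.absNorm v.asIdeal : ℝ) ^ 1)
    (ψ := fun v => tF Y.eqs Y.dim 2 Y.b₂ K v + tF Z.eqs Z.dim 2 Z.b₂ K v + cor Y Z v)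
    ⟨Y.b₂ + Z.b₂ + (Y.b₁ : ℝ) * Z.b₁, fun v => (abs_add_le _ _).trans (add_le_add
      ((abs_add_le _ _).trans (add_le_add (bd_tF _ _ _ _ v) (bd_tF _ _ _ _ v)))
      (cor_le Y Z v))⟩ (fun v hv => by
      obtain ⟨α, γ, α', γ', g1, g2, g3, g4, hb⟩ := h v hv
      rw [hb]
      exact prod_val g1 g2 g3 g4)
  refine h1.congr fun T => ?_
  rw [average_eq]

/-- **The deviation as an average.** -/
theorem dev {D : ℕ → ℝ} (h : IsDeviation Y Z D) :
    Tendsto (fun T : ℕ => D T - LA ∅ T (cor Y Z)) atTop (𝓝 0) := by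
  obtain ⟨R₀, R', R, b₀, b', b, h0, h', hp, hD⟩ := h
  have h1 := avg_one h0
  have h2 := avg_one h'
  have h3 := avg_prod hp
  have h4 := LA_EN ∅ (φ := cor Y Z) (ψ := cor Y Z) ⟨_, fun v => cor_le Y Z v⟩ fun v _ => rfl
  have h5 := ((h3.sub h1).sub h2).sub h4
  simp only [sub_zero] at h5
  refine h5.congr fun T => ?_
  rw [hD, EN_eq, EN_eq, EN_eq, EN_eq, Finset.sum_add_distrib, Finset.sum_add_distrib]
  ring

theorem dev_ge {D : ℕ → ℝ} (h : IsDeviation Y Z D) {c : ℝ} (hc : LowerLimitGE D c) {η : ℝ}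
    (hη : 0 < η) : ∀ᶠ ε : ℝ in 𝓝[>] 0, c - η ≤ EP (nm K) ε (cor Y Z) / lam ε := by
  refine abel_ge (fun v => cor_le Y Z v) (fun η' hη' => ?_) hη
  filter_upwards [hc (η' / 2) (half_pos hη'), (dev h).eventually_lt_const (half_pos hη')]
    with T h1 h2
  linarith

theorem dev_le {D : ℕ → ℝ} (h : IsDeviation Y Z D) {c : ℝ} (hc : UpperLimitLE D c) {η : ℝ}
    (hη : 0 < η) : ∀ᶠ ε : ℝ in 𝓝[>] 0, EP (nm K) ε (cor Y Z) / lam ε ≤ c + η := by
  refine abel_le (fun v => cor_le Y Z v) (fun η' hη' => ?_) hη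
  filter_upwards [hc (η' / 2) (half_pos hη'), (dev h).eventually_const_lt
    (show -(η' / 2) < (0 : ℝ) by linarith)] with T h1 h2
  linarith

/-- the spectrum and the averages -/
theorem spec_ge (hf : IsNewforms L f) {m : Ω →₀ ℕ} (hm : IsNewformSum f Z m) {D : ℕ → ℝ}
    (h : IsDeviation Y Z D) {c : ℝ} (hc : LowerLimitGE D c) {η : ℝ} (hη : 0 < η) :
    ∀ᶠ ε : ℝ in 𝓝[>] 0, c - η ≤ m.sum fun x k => (k : ℝ) * sp f Y x ε := by
  filter_upwards [dev_ge h hc (half_pos hη),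
    (add_spec (Y := Y) hf hm).eventually_lt_const (half_pos hη)] with ε h1 h2
  have h3 : c - η / 2 ≤ (EP (nm K) ε fun v =>
      tF Y.eqs Y.dim 1 Y.b₁ K v * tF Z.eqs Z.dim 1 Z.b₁ K v) / lam ε := h1
  linarith

theorem spec_le (hf : IsNewforms L f) {m : Ω →₀ ℕ} (hm : IsNewformSum f Z m) {D : ℕ → ℝ}
    (h : IsDeviation Y Z D) {c : ℝ} (hc : UpperLimitLE D c) {η : ℝ} (hη : 0 < η) :
    ∀ᶠ ε : ℝ in 𝓝[>] 0, (m.sum fun x k => (k : ℝ) * sp f Y x ε) ≤ c + η := by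
  filter_upwards [dev_le h hc (half_pos hη),
    (add_spec (Y := Y) hf hm).eventually_const_lt (show -(η / 2) < (0 : ℝ) by linarith)]
    with ε h1 h2
  have h3 : (EP (nm K) ε fun v =>
      tF Y.eqs Y.dim 1 Y.b₁ K v * tF Z.eqs Z.dim 1 Z.b₁ K v) / lam ε ≤ c + η / 2 := h1
  linarith

/-- the mean square of `Y` -/
theorem square_bound {ρ : ℝ}
    (hρ : ρ = (Y.b₁ : ℝ) ^ 2 ∨ ∃ D, IsDeviation Y Y D ∧ UpperLimitLE D ρ) {η : ℝ} (hη : 0 < η) :
    ∀ᶠ ε : ℝ in 𝓝[>] 0, (EP (nm K) ε fun v => tF Y.eqs Y.dim 1 Y.b₁ K v ^ 2) / lam ε ≤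
      ρ + η := by
  have hN : NormSys (nm K) := normSys
  have e : ∀ ε : ℝ, (EP (nm K) ε fun v => tF Y.eqs Y.dim 1 Y.b₁ K v ^ 2) =
      EP (nm K) ε (cor Y Y) := fun ε =>
    Pool.Agent.Y677.SM.EP_congr fun v => by unfold cor; ring
  rcases hρ with h | ⟨D, hD, hρ⟩
  · have l1 : Tendsto (fun ε : ℝ => (Y.b₁ : ℝ) ^ 2 * ((EP (nm K) ε fun _ => 1) / lam ε)) (𝓝[>] 0)
        (𝓝 ((Y.b₁ : ℝ) ^ 2 * 1)) := (EP_one K).const_mul _
    rw [mul_one] at l1
    filter_upwards [self_mem_nhdsWithin, lam_tendsto.eventually_gt_atTop 0,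
      l1.eventually_lt_const (show (Y.b₁ : ℝ) ^ 2 < ρ + η by rw [h]; linarith)] with ε hε hε' h1
    have hε0 : (0 : ℝ) < ε := hε
    have h2 := EP_le hN hε0 (φ := cor Y Y) (B := (Y.b₁ : ℝ) * Y.b₁) (cor_le Y Y)
      (b := (Y.b₁ : ℝ) ^ 2) (fun v => by
        have := (le_abs_self _).trans (cor_le Y Y v)
        rw [sq]
        exact this)
    rw [e]
    refine le_trans ?_ h1.le
    rw [← mul_div_assoc]
    exact div_le_div_of_nonneg_right h2 hε'.le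
  · filter_upwards [dev_le hD hρ hη] with ε h1
    rw [e]
    exact h1

/-- **Bessel's inequality.** -/
theorem bessel (hf : IsNewforms L f) {ρ : ℝ}
    (hρ : ρ = (Y.b₁ : ℝ) ^ 2 ∨ ∃ D, IsDeviation Y Y D ∧ UpperLimitLE D ρ) (J : Finset Ω) {η : ℝ}
    (hη : 0 < η) : ∀ᶠ ε : ℝ in 𝓝[>] 0,
      ∑ x ∈ J, (max (sp f Y x ε) 0) ^ 2 ≤ Module.finrank ℚ K * ρ + η ∧
      ∑ x ∈ J, (max (-sp f Y x ε) 0) ^ 2 ≤ Module.finrank ℚ K * ρ + η := by
  classical
  have hD : (0 : ℝ) < Module.finrank ℚ K := by exact_mod_cast Module.finrank_pos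
  obtain ⟨g1, g2⟩ := spec_bessel (X := Y.eqs) (d := Y.dim) (j := 1) (b := Y.b₁) hf
    (J.map ⟨fun x => ((x, 0) : Ω × ℝ), fun a b h => (Prod.ext_iff.1 h).1⟩) (half_pos hη)
  filter_upwards [g1, g2, square_bound hρ
    (show 0 < η / (2 * Module.finrank ℚ K) by positivity)] with ε h4 h5 h6
  rw [Finset.sum_map] at h4 h5
  have h7 : (Module.finrank ℚ K : ℝ) *
      ((EP (nm K) ε fun v => tF Y.eqs Y.dim 1 Y.b₁ K v ^ 2) / lam ε) ≤
      Module.finrank ℚ K * ρ + η / 2 := by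
    calc (Module.finrank ℚ K : ℝ) *
        ((EP (nm K) ε fun v => tF Y.eqs Y.dim 1 Y.b₁ K v ^ 2) / lam ε) ≤
        Module.finrank ℚ K * (ρ + η / (2 * Module.finrank ℚ K)) :=
          mul_le_mul_of_nonneg_left h6 hD.le
      _ = _ := by field_simp
  have h4' : ∑ x ∈ J, (max (sp f Y x ε) 0) ^ 2 ≤ Module.finrank ℚ K *
      ((EP (nm K) ε fun v => tF Y.eqs Y.dim 1 Y.b₁ K v ^ 2) / lam ε) + η / 2 := h4
  have h5' : ∑ x ∈ J, (max (-sp f Y x ε) 0) ^ 2 ≤ Module.finrank ℚ K *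
      ((EP (nm K) ε fun v => tF Y.eqs Y.dim 1 Y.b₁ K v ^ 2) / lam ε) + η / 2 := h5
  constructor <;> linarith

section
variable {ι : Type} {W : ι → VarK K} {m : ι → Ω →₀ ℕ} {M : ℕ} {ρ : ℝ} {D : ι → ℕ → ℝ}

theorem sq_shift {c η : ℝ} (hc : 0 ≤ c) (hη : 0 ≤ η) : c ^ 2 - 2 * c * η ≤ (max (c - η) 0) ^ 2 := by
  rcases le_total (c - η) 0 with h | h
  · rw [max_eq_right h]
    nlinarith
  · rw [max_eq_left h]
    nlinarith

/-- the inequality for families, from bounds for the spectrum -/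
theorem family (hf : IsNewforms L f)
    (hρ : ρ = (Y.b₁ : ℝ) ^ 2 ∨ ∃ D, IsDeviation Y Y D ∧ UpperLimitLE D ρ)
    (hM : ∀ (x : Ω) (S : Finset ι), (∀ i ∈ S, m i x ≠ 0) → S.card ≤ M)
    (J : Finset ι) (c : ι → ℝ) (hc : ∀ i ∈ J, 0 ≤ c i) (σ : ℝ) (hσ : σ = 1 ∨ σ = -1)
    (h : ∀ i ∈ J, ∀ η : ℝ, 0 < η → ∀ᶠ ε : ℝ in 𝓝[>] 0,
      c i - η ≤ (m i).sum fun x k => (k : ℝ) * (σ * sp f Y x ε)) :
    ∑ i ∈ J, c i ^ 2 / ((m i).sum fun _ k => k ^ 2 : ℕ) ≤ M * (Module.finrank ℚ K * ρ) := by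
  classical
  set U : Finset Ω := J.biUnion fun i => (m i).support with hU
  set A : ℝ := ∑ i ∈ J, 2 * c i / ((m i).sum fun _ k => k ^ 2 : ℕ) with hA
  have hA0 : 0 ≤ A := Finset.sum_nonneg fun i hi => by
    have := hc i hi
    positivity
  refine le_of_forall_pos_le_add fun η hη => ?_
  set θ : ℝ := η / (2 * (A + M + 1)) with hθ
  have hM0 : (0 : ℝ) ≤ M := Nat.cast_nonneg _
  have hθ0 : 0 < θ := by positivity
  have h1 : ∀ᶠ ε : ℝ in 𝓝[>] 0, ∀ i ∈ J,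
      c i - θ ≤ (m i).sum fun x k => (k : ℝ) * (σ * sp f Y x ε) :=
    (Finset.eventually_all J).2 fun i hi => h i hi θ hθ0
  obtain ⟨ε, h2, h3⟩ := (h1.and (bessel hf hρ U hθ0)).exists
  have h4 : ∑ x ∈ U, (max (σ * sp f Y x ε) 0) ^ 2 ≤ Module.finrank ℚ K * ρ + θ := by
    rcases hσ with rfl | rfl
    · simpa only [one_mul] using h3.1
    · simpa only [neg_one_mul] using h3.2
  have h5 : ∑ i ∈ J, (max (c i - θ) 0) ^ 2 / ((m i).sum fun _ k => k ^ 2 : ℕ) ≤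
      M * (Module.finrank ℚ K * ρ + θ) := by
    have h6 : ∀ i ∈ J, (max (c i - θ) 0) ^ 2 / ((m i).sum fun _ k => k ^ 2 : ℕ) ≤
        ∑ x ∈ (m i).support, (max (σ * sp f Y x ε) 0) ^ 2 := by
      intro i hi
      refine le_trans ?_ (w_ineq (m i) (fun x => σ * sp f Y x ε)
        (fun x => max (σ * sp f Y x ε) 0) (fun x => le_max_left _ _) fun x => le_max_right _ _)
      refine div_le_div_of_nonneg_right ?_ (Nat.cast_nonneg _)
      exact pow_le_pow_left₀ (le_max_right _ _) (max_le_max_right _ (h2 i hi)) 2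
    refine (Finset.sum_le_sum h6).trans ?_
    refine (mult_le hM J (fun x => max (σ * sp f Y x ε) 0 ^ 2) fun x => sq_nonneg _).trans ?_
    exact mul_le_mul_of_nonneg_left h4 hM0
  have h7 : ∑ i ∈ J, c i ^ 2 / ((m i).sum fun _ k => k ^ 2 : ℕ) ≤
      ∑ i ∈ J, (max (c i - θ) 0) ^ 2 / ((m i).sum fun _ k => k ^ 2 : ℕ) + θ * A := by
    rw [hA, Finset.mul_sum, ← Finset.sum_add_distrib]
    refine Finset.sum_le_sum fun i hi => ?_
    have h8 := sq_shift (hc i hi) hθ0.le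
    have e : θ * (2 * c i / ((m i).sum fun _ k => k ^ 2 : ℕ)) =
        (2 * c i * θ) / ((m i).sum fun _ k => k ^ 2 : ℕ) := by ring
    rw [e, ← add_div]
    refine div_le_div_of_nonneg_right ?_ (Nat.cast_nonneg _)
    linarith
  have h9 : θ * A + M * θ ≤ η := by
    have e : θ * (A + M + 1) = η / 2 := by
      rw [hθ]
      field_simp
    nlinarith
  nlinarith

/-- **The inequality for families.** -/
theorem main_sum (hf : IsNewforms L f)
    (hρ : ρ = (Y.b₁ : ℝ) ^ 2 ∨ ∃ D, IsDeviation Y Y D ∧ UpperLimitLE D ρ)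
    (hm : ∀ i, IsNewformSum f (W i) (m i))
    (hM : ∀ (x : Ω) (S : Finset ι), (∀ i ∈ S, m i x ≠ 0) → S.card ≤ M)
    (hD : ∀ i, IsDeviation Y (W i) (D i)) (J : Finset ι) (c : ι → ℝ) (hc : ∀ i ∈ J, 0 ≤ c i)
    (h : (∀ i ∈ J, LowerLimitGE (D i) (c i)) ∨ ∀ i ∈ J, UpperLimitLE (D i) (-c i)) :
    ∑ i ∈ J, c i ^ 2 / ((m i).sum fun _ k => k ^ 2 : ℕ) ≤ M * (Module.finrank ℚ K * ρ) := by
  rcases h with h | h
  · refine family hf hρ hM J c hc 1 (Or.inl rfl) fun i hi η hη => ?_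
    filter_upwards [spec_ge hf (hm i) (hD i) (h i hi) hη] with ε h1
    simpa only [one_mul] using h1
  · refine family hf hρ hM J c hc (-1) (Or.inr rfl) fun i hi η hη => ?_
    filter_upwards [spec_le hf (hm i) (hD i) (h i hi) hη] with ε h1
    have e : ((m i).sum fun x k => (k : ℝ) * (-1 * sp f Y x ε)) =
        -((m i).sum fun x k => (k : ℝ) * sp f Y x ε) := by
      unfold Finsupp.sum
      rw [← Finset.sum_neg_distrib]
      exact Finset.sum_congr rfl fun x _ => by ring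
    rw [e]
    linarith

/-- no newform, no deviation -/
theorem w_pos (hf : IsNewforms L f) {Z : VarK K} {m : Ω →₀ ℕ} (hm : IsNewformSum f Z m)
    {D : ℕ → ℝ} (hD : IsDeviation Y Z D) {δ : ℝ} (hδ : 0 < δ)
    (h : LowerLimitGE D δ ∨ UpperLimitLE D (-δ)) : 0 < (m.sum fun _ k => k ^ 2) := by
  rcases Nat.eq_zero_or_pos (m.sum fun _ k => k ^ 2) with h0 | h0
  · exfalso
    have hs : ∀ ε : ℝ, (m.sum fun x k => (k : ℝ) * sp f Y x ε) = 0 := by
      intro ε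
      unfold Finsupp.sum at h0 ⊢
      rw [Finset.sum_eq_zero_iff] at h0
      refine Finset.sum_eq_zero fun x hx => ?_
      have h1 : m x ^ 2 = 0 := h0 x hx
      rw [sq_eq_zero_iff] at h1
      change ((m x : ℕ) : ℝ) * sp f Y x ε = 0
      rw [h1, Nat.cast_zero, zero_mul]
    rcases h with h | h
    · obtain ⟨ε, h1⟩ := (spec_ge hf hm hD h (half_pos hδ)).exists
      rw [hs] at h1
      linarith
    · obtain ⟨ε, h1⟩ := (spec_le hf hm hD h (half_pos hδ)).exists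
      rw [hs] at h1
      linarith
  · exact h0

/-- **The number of the exceptions.** -/
theorem main_count (hf : IsNewforms L f)
    (hρ : ρ = (Y.b₁ : ℝ) ^ 2 ∨ ∃ D, IsDeviation Y Y D ∧ UpperLimitLE D ρ)
    (hm : ∀ i, IsNewformSum f (W i) (m i))
    (hM : ∀ (x : Ω) (S : Finset ι), (∀ i ∈ S, m i x ≠ 0) → S.card ≤ M)
    (hD : ∀ i, IsDeviation Y (W i) (D i)) (w : ℕ) {δ : ℝ} (hδ : 0 < δ) :
    {i | ((m i).sum fun _ k => k ^ 2) ≤ w ∧
      (LowerLimitGE (D i) δ ∨ UpperLimitLE (D i) (-δ))}.Finite ∧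
    ({i | ((m i).sum fun _ k => k ^ 2) ≤ w ∧
      (LowerLimitGE (D i) δ ∨ UpperLimitLE (D i) (-δ))}.ncard : ℝ) ≤
      2 * (M * (Module.finrank ℚ K * ρ)) * w / δ ^ 2 := by
  classical
  set C : ℝ := M * (Module.finrank ℚ K * ρ) with hC
  have hC0 : 0 ≤ C := by
    have h1 := main_sum hf hρ hm hM hD ∅ (fun _ => 0) (by simp) (Or.inl (by simp))
    simpa using h1
  have key1 : ∀ S : Finset ι, (∀ i ∈ S, ((m i).sum fun _ k => k ^ 2) ≤ w) →
      ((∀ i ∈ S, LowerLimitGE (D i) δ) ∨ ∀ i ∈ S, UpperLimitLE (D i) (-δ)) →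
      (S.card : ℝ) ≤ C * w / δ ^ 2 := by
    intro S hS h
    have h1 := main_sum hf hρ hm hM hD S (fun _ => δ) (fun _ _ => hδ.le) h
    have h2 : ∑ i ∈ S, δ ^ 2 / (w : ℝ) ≤ ∑ i ∈ S, δ ^ 2 / ((m i).sum fun _ k => k ^ 2 : ℕ) := by
      refine Finset.sum_le_sum fun i hi => ?_
      have h3 : 0 < ((m i).sum fun _ k => k ^ 2) := w_pos hf (hm i) (hD i) hδ
        (h.elim (fun h => Or.inl (h i hi)) fun h => Or.inr (h i hi))
      refine div_le_div_of_nonneg_left (by positivity) (by exact_mod_cast h3) ?_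
      exact_mod_cast hS i hi
    rw [Finset.sum_const, nsmul_eq_mul] at h2
    rcases S.eq_empty_or_nonempty with h4 | ⟨i, hi⟩
    · rw [h4, Finset.card_empty, Nat.cast_zero]
      positivity
    · have h3 : 0 < ((m i).sum fun _ k => k ^ 2) := w_pos hf (hm i) (hD i) hδ
        (h.elim (fun h => Or.inl (h i hi)) fun h => Or.inr (h i hi))
      have hw : (0 : ℝ) < w := by exact_mod_cast lt_of_lt_of_le h3 (hS i hi)
      rw [le_div_iff₀ (by positivity)]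
      have h5 := h2.trans h1
      rw [← mul_div_assoc, div_le_iff₀ hw] at h5
      exact h5
  have key : ∀ S : Finset ι, (∀ i ∈ S, ((m i).sum fun _ k => k ^ 2) ≤ w ∧
      (LowerLimitGE (D i) δ ∨ UpperLimitLE (D i) (-δ))) →
      (S.card : ℝ) ≤ 2 * C * w / δ ^ 2 := by
    intro S hS
    have h1 := key1 (S.filter fun i => LowerLimitGE (D i) δ)
      (fun i hi => (hS i (Finset.mem_filter.1 hi).1).1)
      (Or.inl fun i hi => (Finset.mem_filter.1 hi).2)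
    have h2 := key1 (S.filter fun i => ¬ LowerLimitGE (D i) δ)
      (fun i hi => (hS i (Finset.mem_filter.1 hi).1).1)
      (Or.inr fun i hi => ((hS i (Finset.mem_filter.1 hi).1).2).resolve_left
        (Finset.mem_filter.1 hi).2)
    have h3 : (S.card : ℝ) = (S.filter fun i => LowerLimitGE (D i) δ).card +
        (S.filter fun i => ¬ LowerLimitGE (D i) δ).card := by
      exact_mod_cast (Finset.card_filter_add_card_filter_not (s := S)
        (fun i => LowerLimitGE (D i) δ)).symm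
    have e : 2 * C * w / δ ^ 2 = C * w / δ ^ 2 + C * w / δ ^ 2 := by ring
    rw [h3, e]
    exact add_le_add h1 h2
  have hfin : {i | ((m i).sum fun _ k => k ^ 2) ≤ w ∧
      (LowerLimitGE (D i) δ ∨ UpperLimitLE (D i) (-δ))}.Finite := by
    by_contra hinf
    obtain ⟨n, hn⟩ := exists_nat_gt (2 * C * w / δ ^ 2)
    obtain ⟨S, hS1, hS2⟩ := Set.Infinite.exists_subset_card_eq hinf n
    have h1 := key S fun x hx => hS1 hx
    rw [hS2] at h1
    linarith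
  refine ⟨hfin, ?_⟩
  have h1 := key hfin.toFinset fun x hx => hfin.mem_toFinset.1 hx
  rwa [← Set.ncard_eq_toFinset_card _ hfin] at h1

end

end

end Pool.Agent.U187.TM
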